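import Pool.Agent.MP_fed7c7_lc.H93.Spec
import Pool.Agent.MP_94d996_lc.H23.Prim

set_option autoImplicit false

/-!
The helical tableau of a counter machine.
-/

namespace Pool.Agent.MP_fed7c7_lc.H19

open Pool.Agent.MP_fed7c7_lc.H93 Pool.Agent.MP_94d996_lc.H23

variable (M : Mach) (D : ℕ)

/-- cells: start flag, edge into the row, unary bits -/
abbrev Cell : Type := Bool × Option M.E × (Fin D → Bool)

/-- the state of a row -/
def st : Option M.E → M.L
  | none => M.s
  | some e => M.dst e

variable {M D}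

/-- rule in the first row -/
def R0 (x z : Cell M D) : Prop :=
  x.1 = false ∧ x.2.1 = none ∧ ∀ r, x.2.2 r = true → z.2.2 r = true

/-- rule in the later rows -/
def R1 (x y z w : Cell M D) : Prop :=
  x.1 = y.1 ∧ (∃ e, x.2.1 = some e ∧ M.src e = st M y.2.1 ∧ (x.1 = false → ∀ r : Fin D,
    (M.del e r = 0 → x.2.2 r = y.2.2 r) ∧ (M.del e r = 1 → x.2.2 r = w.2.2 r) ∧
    (M.del e r = -1 → y.2.2 r = z.2.2 r) ∧ (M.tst e r → z.1 = true → y.2.2 r = false))) ∧
  (x.1 = true → ∀ r, x.2.2 r = true ∧ z.2.2 r = false) ∧ (x.1 = false → z.2.1 = x.2.1)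

/-- rule at the header -/
def RH (y z : Cell M D) : Prop := y.1 = true ∧ st M y.2.1 = M.h ∧ ∀ r, z.2.2 r = false

variable (M D)

/-- the first cell -/
def cf : Cell M D := (true, none, fun _ => true)

/-- the input cell -/
def cc : Cell M D := (false, none, fun r => decide (r.1 = 0))

/-- the end cell -/
def ce : Cell M D := (false, none, fun _ => false)

/-- tableaux of cells -/
def ATab (a : ℕ) : Prop :=
  ∃ (k N : ℕ) (g : ℕ → Cell M D), 1 ≤ k ∧ a + 2 ≤ N ∧ g 0 = cf M D ∧
    (∀ i, 1 ≤ i → i ≤ a → g i = cc M D) ∧ g (a + 1) = ce M D ∧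
    (∀ i, 1 ≤ i → i < N → i < k → R0 (g i) (g (i - 1))) ∧
    (∀ i, k ≤ i → i < N → R1 (g i) (g (i - k)) (g (i - 1)) (g (i - (k + 1)))) ∧
    k ≤ N ∧ RH (g (N - k)) (g (N - 1))

variable {M D}

lemma sound (hD : ∀ e r, D ≤ r → M.del e r = 0 ∧ ¬ M.tst e r) {a : ℕ} (h : ATab M D a) :
    ∃ b, M.Reach (M.s, inp a) (M.h, b) := by
  obtain ⟨k, N, g, k1, hN, g0, gc, ge, r0, r1, kN, rh⟩ := h
  have hk : a + 2 ≤ k := by
    by_contra hc
    have h1 := (r1 k le_rfl (by omega)).1
    rw [Nat.sub_self, g0] at h1
    by_cases e : k = a + 1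
    · rw [e, ge] at h1; simp [ce, cf] at h1
    · rw [gc k k1 (by omega)] at h1; simp [cc, cf] at h1
  have flag : ∀ t j, j < k → t * k + j < N → (g (t * k + j)).1 = decide (j = 0) := by
    intro t
    induction t with
    | zero =>
      intro j h1 h2
      simp only [Nat.zero_mul, Nat.zero_add] at h2 ⊢
      by_cases e : j = 0
      · subst e; rw [g0]; rfl
      · rw [(r0 j (by omega) h2 h1).1]; simp [e]
    | succ t ih =>
      intro j h1 h2
      rw [Nat.succ_mul] at h2 ⊢
      rw [(r1 _ (by omega) h2).1, show t * k + k + j - k = t * k + j by omega]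
      exact ih j h1 (by omega)
  have last : ∀ t, t * k + k ≤ N → ∀ r, (g (t * k + (k - 1))).2.2 r = false := by
    intro t h r
    rcases h.eq_or_lt with e | h
    · rw [show t * k + (k - 1) = N - 1 by omega]; exact rh.2.2 r
    · have h1 := flag (t + 1) 0 (by omega) (by rw [Nat.succ_mul]; omega)
      rw [Nat.succ_mul, Nat.add_zero] at h1
      have h2 := ((r1 _ (by omega) h).2.2.1 (by simpa using h1) r).2
      rwa [show t * k + k - 1 = t * k + (k - 1) by omega] at h2
  have row : ∀ t, t * k + k ≤ N → ∃ v : Val, M.Reach (M.s, inp a) (st M (g (t * k)).2.1, v) ∧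
      (∀ j, j < k → (g (t * k + j)).2.1 = (g (t * k)).2.1) ∧
      ∀ j, j < k → ∀ r : Fin D, (g (t * k + j)).2.2 r = decide (j ≤ v r) := by
    intro t
    induction t with
    | zero =>
      intro _
      simp only [Nat.zero_mul, Nat.zero_add]
      refine ⟨inp a, by rw [g0]; exact Relation.ReflTransGen.refl, fun j hj => ?_, fun j hj r => ?_⟩
      · by_cases e : j = 0
        · rw [e]
        · rw [(r0 j (by omega) (by omega) hj).2.1, g0]; rfl
      · have hz : ∀ j, a + 1 ≤ j → j < k → (g j).2.2 r = false := by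
          intro j h1
          induction j, h1 using Nat.le_induction with
          | base => intro _; rw [ge]; rfl
          | succ j h1 ih =>
            intro h2
            have := (r0 (j + 1) (by omega) (by omega) h2).2.2 r
            rw [Nat.add_sub_cancel, ih (by omega)] at this
            simpa using this
        by_cases e : j = 0
        · subst e; rw [g0]; simp [cf]
        by_cases e' : j ≤ a
        · rw [gc j (by omega) e']
          simp only [cc, inp]
          split_ifs with h <;> simp [h] <;> omega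
        · rw [hz j (by omega) hj]
          simp only [inp]
          split_ifs with h <;> simp <;> omega
    | succ t ih =>
      intro h
      rw [Nat.succ_mul] at h ⊢
      obtain ⟨v, a1, a2, a3⟩ := ih (by omega)
      have fl : ∀ j, j < k → (g (t * k + k + j)).1 = decide (j = 0) := fun j hj => by
        have := flag (t + 1) j hj (by rw [Nat.succ_mul]; omega)
        rwa [Nat.succ_mul] at this
      obtain ⟨-, ⟨e, e1, e2, -⟩, e3, -⟩ := r1 (t * k + k) (by omega) (by omega)
      rw [Nat.add_sub_cancel] at e2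
      have one := fun r => (e3 (by simpa using fl 0 (by omega)) r).1
      have lab : ∀ j, j < k → (g (t * k + k + j)).2.1 = some e := by
        intro j
        induction j with
        | zero => intro _; exact e1
        | succ j ih =>
          intro hj
          have := (r1 (t * k + k + (j + 1)) (by omega) (by omega)).2.2.2
            (by simpa using fl (j + 1) hj)
          rw [← this, show t * k + k + (j + 1) - 1 = t * k + k + j by omega]
          exact ih (by omega)
      have key : ∀ j, j + 1 < k → ∀ r : Fin D,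
          (M.del e r = 0 → (g (t * k + k + (j + 1))).2.2 r = decide (j + 1 ≤ v r)) ∧
          (M.del e r = 1 → (g (t * k + k + (j + 1))).2.2 r = decide (j ≤ v r)) ∧
          (M.del e r = -1 → decide (j + 1 ≤ v r) = (g (t * k + k + j)).2.2 r) ∧
          (M.tst e r → j = 0 → decide (j + 1 ≤ v r) = false) := by
        intro j hj r
        obtain ⟨-, ⟨e', f1, -, f2⟩, -⟩ := r1 (t * k + k + (j + 1)) (by omega) (by omega)
        rw [lab _ hj] at f1
        cases f1
        have f3 := f2 (by simpa using fl (j + 1) hj) r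
        rw [show t * k + k + (j + 1) - k = t * k + (j + 1) by omega,
          show t * k + k + (j + 1) - 1 = t * k + k + j by omega,
          show t * k + k + (j + 1) - (k + 1) = t * k + j by omega, a3 _ hj, a3 j (by omega),
          fl j (by omega)] at f3
        exact ⟨f3.1, f3.2.1, f3.2.2.1, fun h1 h2 => f3.2.2.2 h1 (by simpa using h2)⟩
      have del : ∀ r, M.del e r = 0 ∨ M.del e r = 1 ∨ M.del e r = -1 := fun r => by
        have := abs_le.1 (M.one e r)
        omega
      have pos : ∀ r, M.del e r = -1 → 1 ≤ v r := by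
        intro r hr
        have hr' : r < D := by
          by_contra c
          have := (hD e r (by omega)).1
          omega
        have := ((key 0 (by omega) ⟨r, hr'⟩).2.2.1 hr).trans (one _)
        simpa using this
      refine ⟨fun r => (v r + M.del e r).toNat, a1.tail ⟨e, e2, by rw [e1]; rfl, fun r => ?_,
        fun r hr => ?_⟩, fun j hj => (lab j hj).trans e1.symm, fun j hj r => ?_⟩
      · have := pos r
        have := del r
        simp only
        omega
      · have hr' : r < D := by
          by_contra c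
          exact (hD e r (by omega)).2 hr
        have := (key 0 (by omega) ⟨r, hr'⟩).2.2.2 hr rfl
        simpa using this
      · beta_reduce
        rcases j with _ | j
        · rw [Nat.add_zero, one]; simp
        rcases del r with d | d | d
        · rw [(key j hj r).1 d, d]; simp
        · rw [(key j hj r).2.1 d, d, decide_eq_decide]; omega
        · by_cases l : j + 2 < k
          · rw [← (key (j + 1) l r).2.2.1 d, d, decide_eq_decide]; omega
          · have b1 := last (t + 1) (by rw [Nat.succ_mul]; omega) r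
            have b2 := last t (by omega) r
            rw [a3 _ (by omega)] at b2
            rw [Nat.succ_mul, show k - 1 = j + 1 by omega] at b1
            rw [b1, d]
            simp only [decide_eq_false_iff_not] at b2
            symm
            simp only [decide_eq_false_iff_not]
            omega
  have h1 := Nat.div_add_mod' (N - k) k
  have h2 := flag ((N - k) / k) ((N - k) % k) (Nat.mod_lt _ (by omega)) (by omega)
  rw [h1, rh.1] at h2
  have h3 : (N - k) % k = 0 := by simpa using h2
  obtain ⟨v, b1, -⟩ := row ((N - k) / k) (by omega)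
  rw [show (N - k) / k * k = N - k by omega, rh.2.1] at b1
  exact ⟨v, b1⟩

lemma run_seq {a : ℕ} {y : M.L × Val} (h : M.Reach (M.s, inp a) y) :
    ∃ (T : ℕ) (lab : ℕ → Option M.E) (v : ℕ → Val), lab 0 = none ∧ v 0 = inp a ∧
      st M (lab T) = y.1 ∧ v T = y.2 ∧ ∀ t, t < T → ∃ e, lab (t + 1) = some e ∧
        M.src e = st M (lab t) ∧ Eff (M.del e) (M.tst e) (v t) (v (t + 1)) := by
  induction h with
  | refl => exact ⟨0, fun _ => none, fun _ => inp a, rfl, rfl, rfl, rfl, fun t h => by omega⟩
  | @tail x y _ hs ih =>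
    obtain ⟨T, lab, v, a1, a2, a3, a4, a5⟩ := ih
    obtain ⟨e, b1, b2, b3⟩ := hs
    refine ⟨T + 1, Function.update lab (T + 1) (some e), Function.update v (T + 1) y.2,
      by rwa [Function.update_of_ne (by omega)], by rwa [Function.update_of_ne (by omega)],
      by rw [Function.update_self]; exact b2, by rw [Function.update_self], fun t ht => ?_⟩
    rw [Function.update_of_ne (show t ≠ T + 1 by omega),
      Function.update_of_ne (show t ≠ T + 1 by omega)]
    by_cases l : t = T
    · subst l
      rw [Function.update_self, Function.update_self]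
      exact ⟨e, rfl, b1.trans a3.symm, a4 ▸ b3⟩
    · rw [Function.update_of_ne (show t + 1 ≠ T + 1 by omega),
        Function.update_of_ne (show t + 1 ≠ T + 1 by omega)]
      exact a5 t (by omega)

lemma complete {a : ℕ} {b : Val} (h : M.Reach (M.s, inp a) (M.h, b)) : ATab M D a := by
  obtain ⟨T, lab, v, a1, a2, a3, -, a5⟩ := run_seq h
  obtain ⟨k, hk1, hk2⟩ : ∃ k, a + 2 ≤ k ∧ ∀ t, t ≤ T → ∀ r : Fin D, v t r + 2 ≤ k := by
    refine ⟨a + 2 + ∑ t ∈ Finset.range (T + 1), ∑ r : Fin D, v t r, by omega, fun t ht r => ?_⟩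
    have h1 : v t r ≤ ∑ r : Fin D, v t r :=
      Finset.single_le_sum (f := fun r : Fin D => v t r) (fun _ _ => Nat.zero_le _)
        (Finset.mem_univ r)
    have h2 : ∑ r : Fin D, v t r ≤ ∑ t ∈ Finset.range (T + 1), ∑ r : Fin D, v t r :=
      Finset.single_le_sum (f := fun t => ∑ r : Fin D, v t r) (fun _ _ => Nat.zero_le _)
        (Finset.mem_range.2 (by omega))
    omega
  let g : ℕ → Cell M D := fun i =>
    (decide (i % k = 0), lab (i / k), fun r => decide (i % k ≤ v (i / k) r))
  have hg : ∀ t j, j < k →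
      g (t * k + j) = (decide (j = 0), lab t, fun r : Fin D => decide (j ≤ v t r)) := by
    intro t j hj
    have e1 : (t * k + j) % k = j := by rw [Nat.mul_comm, Nat.mul_add_mod, Nat.mod_eq_of_lt hj]
    have e2 : (t * k + j) / k = t := by
      rw [Nat.mul_comm, Nat.mul_add_div (by omega), Nat.div_eq_of_lt hj, Nat.add_zero]
    simp only [g, e1, e2]
  have hg0 : ∀ j, j < k →
      g j = (decide (j = 0), none, fun r : Fin D => decide (j ≤ inp a r)) := by
    intro j hj
    have := hg 0 j hj
    rwa [Nat.zero_mul, Nat.zero_add, a1, a2] at this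
  refine ⟨k, T * k + k, g, by omega, by omega, ?_, fun i h1 h2 => ?_, ?_, fun i h1 _ h2 => ?_,
    fun i h1 h2 => ?_, by omega, ?_⟩
  · rw [hg0 0 (by omega)]; simp [cf]
  · rw [hg0 i (by omega)]
    simp only [cc, inp, Prod.mk.injEq, decide_eq_false_iff_not, true_and]
    refine ⟨by omega, funext fun r => ?_⟩
    split_ifs with h <;> simp [h] <;> omega
  · rw [hg0 _ (by omega)]
    simp only [ce, inp, Prod.mk.injEq, decide_eq_false_iff_not, true_and]
    refine ⟨by omega, funext fun r => ?_⟩
    split_ifs with h <;> simp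
  · rw [hg0 i h2, hg0 (i - 1) (by omega)]
    refine ⟨by simp; omega, rfl, fun r => ?_⟩
    simp only [decide_eq_true_eq]
    omega
  · obtain ⟨t, j, hj, rfl⟩ : ∃ t j, j < k ∧ i = t * k + k + j :=
      ⟨(i - k) / k, (i - k) % k, Nat.mod_lt _ (by omega), by
        have := Nat.div_add_mod' (i - k) k
        omega⟩
    have ht : t < T := by
      by_contra c
      have := Nat.mul_le_mul_right k (show T ≤ t by omega)
      omega
    obtain ⟨e, b1, b2, b3, b4⟩ := a5 t ht
    have hx := hg (t + 1) j hj
    rw [Nat.succ_mul] at hx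
    rw [hx, show t * k + k + j - k = t * k + j by omega, hg t j hj]
    rcases j with _ | j
    · rw [show t * k + k + 0 - 1 = t * k + (k - 1) by omega, hg t (k - 1) (by omega)]
      refine ⟨rfl, ⟨e, b1, b2, by simp⟩, fun _ r => ⟨by simp, ?_⟩, by simp⟩
      have := hk2 t ht.le r
      simp only [decide_eq_false_iff_not]
      omega
    · have hz := hg (t + 1) j (by omega)
      rw [Nat.succ_mul] at hz
      rw [show t * k + k + (j + 1) - 1 = t * k + k + j by omega, hz,
        show t * k + k + (j + 1) - (k + 1) = t * k + j by omega, hg t j (by omega)]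
      refine ⟨rfl, ⟨e, b1, b2, fun _ r => ?_⟩, by simp, fun _ => rfl⟩
      have c1 := b3 r
      have c2 := b4 r
      simp only [decide_eq_decide, decide_eq_true_eq, decide_eq_false_iff_not]
      refine ⟨fun d => by omega, fun d => by omega, fun d => by omega, fun d d' => ?_⟩
      have := c2 d
      omega
  · have h1 := hg T 0 (by omega)
    rw [Nat.add_zero] at h1
    rw [Nat.add_sub_cancel, h1, show T * k + k - 1 = T * k + (k - 1) by omega,
      hg T (k - 1) (by omega)]
    refine ⟨rfl, a3, fun r => ?_⟩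
    have := hk2 T le_rfl r
    simp only [decide_eq_false_iff_not]
    omega

/-- allowed windows -/
def Wn (de : ℕ → Cell M D) (x y z w : ℕ) : Prop :=
  if x = 1 then 2 ≤ y ∧ RH (de ((y - 2) / 2)) (de ((z - 2) / 2))
  else if y = 0 then R0 (de ((x - 2) / 2)) (de ((z - 2) / 2))
  else R1 (de ((x - 2) / 2)) (de ((y - 2) / 2)) (de ((z - 2) / 2)) (de ((w - 2) / 2))

lemma R1.change {x y z w : Cell M D} (h : R1 x y z w) (hy : y.1 = true) (w' : Cell M D) :
    R1 x y z w' := by
  obtain ⟨h1, ⟨e, h2, h3, -⟩, h4⟩ := h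
  exact ⟨h1, ⟨e, h2, h3, fun c => by rw [h1, hy] at c; cases c⟩, h4⟩

lemma wn_iff (de : ℕ → Cell M D) {k N : ℕ} (G : ℕ → ℕ) (hk : 1 ≤ k) (hN : 1 ≤ N)
    (h0 : (de (G 0)).1 = true) :
    (∀ i, 1 ≤ i → i ≤ N →
      Wn de (lt N G i) (sh k (lt N G) i) (sh 1 (lt N G) i) (sh (k + 1) (lt N G) i)) ↔
    (∀ i, 1 ≤ i → i < N → i < k → R0 (de (G i)) (de (G (i - 1)))) ∧
    (∀ i, k ≤ i → i < N →
      R1 (de (G i)) (de (G (i - k))) (de (G (i - 1))) (de (G (i - (k + 1))))) ∧
    k ≤ N ∧ RH (de (G (N - k))) (de (G (N - 1))) := by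
  have l1 : ∀ i, i < N → lt N G i = 2 * G i + 2 := fun i h => by simp [lt, h]
  have l2 : lt N G N = 1 := by simp [lt]
  have d : ∀ n, (2 * n + 2 - 2) / 2 = n := fun n => by omega
  have s1 : ∀ i, 1 ≤ i → i ≤ N → sh 1 (lt N G) i = 2 * G (i - 1) + 2 := fun i h h' => by
    rw [sh, if_pos h, l1 _ (by omega)]
  have s2 : ∀ i, k ≤ i → i ≤ N → sh k (lt N G) i = 2 * G (i - k) + 2 := fun i h h' => by
    rw [sh, if_pos h, l1 _ (by omega)]
  have s3 : ∀ i, i < k → sh k (lt N G) i = 0 := fun i h => by rw [sh, if_neg (by omega)]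
  have A : ∀ i, 1 ≤ i → i < N → i < k →
      (Wn de (lt N G i) (sh k (lt N G) i) (sh 1 (lt N G) i) (sh (k + 1) (lt N G) i) ↔
        R0 (de (G i)) (de (G (i - 1)))) := fun i h1 h2 h3 => by
    rw [l1 i h2, s1 i h1 h2.le, s3 i h3, Wn, if_neg (by omega), if_pos rfl, d, d]
  have B : ∀ i, k ≤ i → i < N →
      (Wn de (lt N G i) (sh k (lt N G) i) (sh 1 (lt N G) i) (sh (k + 1) (lt N G) i) ↔
        R1 (de (G i)) (de (G (i - k))) (de (G (i - 1))) (de (G (i - (k + 1))))) := fun i h1 h2 => by
    rw [l1 i h2, s1 i (by omega) h2.le, s2 i h1 h2.le, Wn, if_neg (by omega), if_neg (by omega),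
      d, d, d]
    rcases h1.eq_or_lt with e | h1
    · subst e
      rw [Nat.sub_self]
      exact ⟨fun h => h.change h0 _, fun h => h.change h0 _⟩
    · rw [sh, if_pos (by omega), l1 _ (by omega), d]
  have C : Wn de (lt N G N) (sh k (lt N G) N) (sh 1 (lt N G) N) (sh (k + 1) (lt N G) N) ↔
      k ≤ N ∧ RH (de (G (N - k))) (de (G (N - 1))) := by
    rw [l2, s1 N hN le_rfl, Wn, if_pos rfl, d]
    by_cases h : k ≤ N
    · rw [s2 N h le_rfl, d]
      exact ⟨fun a => ⟨h, a.2⟩, fun a => ⟨by omega, a.2⟩⟩
    · rw [s3 N (by omega)]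
      exact ⟨fun a => by omega, fun a => absurd a.1 h⟩
  refine ⟨fun h => ⟨fun i a b c => (A i a b c).1 (h i a b.le),
    fun i a b => (B i a b).1 (h i (by omega) b.le), C.1 (h N hN le_rfl)⟩, fun h i a b => ?_⟩
  rcases b.eq_or_lt with rfl | b
  · exact C.2 h.2.2
  · by_cases c : i < k
    · exact (A i a b c).2 (h.1 i a b c)
    · exact (B i (by omega) b).2 (h.2.1 i (by omega) b)

theorem tab : StmtTAB := by
  obtain ⟨M, hM⟩ := exists_undecidable_mach
  obtain ⟨D, hD⟩ := M.bd
  have := M.fE
  obtain ⟨r, ⟨q⟩⟩ := Finite.exists_equiv_fin (Cell M D)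
  let de : ℕ → Cell M D := fun n => if h : n < r then q.symm ⟨n, h⟩ else cf M D
  have hde : ∀ c, de (q c) = c := fun c => by simp [de]
  refine ⟨_, r, q (cf M D), q (cc M D), q (ce M D), Wn de, hM, (q _).2, (q _).2, (q _).2,
    fun a => ⟨fun ⟨b, h⟩ => ?_, fun h => sound hD ?_⟩⟩
  · obtain ⟨k, N, g, k1, hN, g0, gc, ge, h⟩ := complete (D := D) h
    refine ⟨k, N, fun i => q (g i), k1, hN, by simp only [g0], fun i a b => by simp only [gc i a b],
      by simp only [ge], fun i _ => (q _).2,
      (wn_iff de _ k1 (by omega) (by simp only [hde, g0]; rfl)).2 ?_⟩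
    simpa only [hde] using h
  · obtain ⟨k, N, G, k1, hN, g0, gc, ge, -, h⟩ := h
    exact ⟨k, N, fun i => de (G i), k1, hN, by simp only [g0, hde],
      fun i a b => by simp only [gc i a b, hde], by simp only [ge, hde],
      (wn_iff de G k1 (by omega) (by rw [g0, hde]; rfl)).1 h⟩

end Pool.Agent.MP_fed7c7_lc.H19
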